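import Mathlib
import Pool.Agent.H892.KT.EN

/-!
# Project EN of helper892: division of a holomorphic function by the second coordinate
-/

set_option autoImplicit false

open Filter Topology Set Metric MeasureTheory
open Pool.Agent.H892.KT

namespace Pool.Agent.H224.KT

/-- Holomorphic functions of two variables are analytic. -/
theorem ana1 (hA : S_ANA) {V : Set (ℂ × ℂ)} {g : ℂ × ℂ → ℂ} (hV : IsOpen V)
    (hg : DifferentiableOn ℂ g V) {x : ℂ × ℂ} (hx : x ∈ V) : AnalyticAt ℂ g x := by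
  have h1 := hA V (fun p => (g p, 0)) hV (hg.prodMk (differentiableOn_const 0)) x hx
  exact AnalyticAt.comp (f := fun p => (g p, (0 : ℂ))) ((ContinuousLinearMap.fst ℂ ℂ ℂ).analyticAt _)
    h1

/-- The map `(a, b) ↦ (a, s b)`. -/
noncomputable def Ls (s : ℝ) : ℂ × ℂ →L[ℂ] ℂ × ℂ :=
  (ContinuousLinearMap.fst ℂ ℂ ℂ).prod ((s : ℂ) • ContinuousLinearMap.snd ℂ ℂ ℂ)

theorem Ls_apply (s : ℝ) (x : ℂ × ℂ) : Ls s x = (x.1, (s : ℂ) * x.2) := rfl

theorem Ls_mem {a : ℂ} {r s : ℝ} (hs : s ∈ Icc (0 : ℝ) 1) {x : ℂ × ℂ}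
    (hx : x ∈ closedBall ((a, 0) : ℂ × ℂ) r) : Ls s x ∈ closedBall ((a, 0) : ℂ × ℂ) r := by
  rw [mem_closedBall, Prod.dist_eq, max_le_iff] at *
  refine ⟨hx.1, ?_⟩
  have h1 := hx.2
  simp only [dist_zero_right] at h1 ⊢
  rw [Ls_apply]
  simp only [norm_mul, Complex.norm_real, Real.norm_eq_abs]
  rw [abs_of_nonneg hs.1]
  calc s * ‖x.2‖ ≤ 1 * ‖x.2‖ := mul_le_mul_of_nonneg_right hs.2 (norm_nonneg _)
    _ = ‖x.2‖ := one_mul _
    _ ≤ r := h1

theorem Ls_norm {s : ℝ} (hs : s ∈ Icc (0 : ℝ) 1) : ‖Ls s‖ ≤ 1 := by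
  refine ContinuousLinearMap.opNorm_le_bound _ zero_le_one fun x => ?_
  rw [Ls_apply, one_mul, Prod.norm_mk, Prod.norm_def]
  refine max_le_max le_rfl ?_
  rw [norm_mul, Complex.norm_real, Real.norm_eq_abs, abs_of_nonneg hs.1]
  calc s * ‖x.2‖ ≤ 1 * ‖x.2‖ := mul_le_mul_of_nonneg_right hs.2 (norm_nonneg _)
    _ = ‖x.2‖ := one_mul _

theorem Ls_cont (x : ℂ × ℂ) : Continuous fun s : ℝ => Ls s x := by
  simp only [Ls_apply]
  fun_prop

theorem Ls_cont' : Continuous fun s : ℝ => Ls s := by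
  have h1 : (fun s : ℝ => Ls s) = fun s : ℝ => (ContinuousLinearMap.inl ℂ ℂ ℂ).comp
      (ContinuousLinearMap.fst ℂ ℂ ℂ) + (s : ℂ) • (ContinuousLinearMap.inr ℂ ℂ ℂ).comp
      (ContinuousLinearMap.snd ℂ ℂ ℂ) := by
    funext s
    ext <;> simp [Ls]
  rw [h1]
  fun_prop

/-- The local form. -/
theorem local_div (hA : S_ANA) {V : Set (ℂ × ℂ)} {g : ℂ × ℂ → ℂ} (hV : IsOpen V)
    (hg : DifferentiableOn ℂ g V) (h0 : ∀ p ∈ V, p.2 = 0 → g p = 0) {a : ℂ}
    (ha : ((a, 0) : ℂ × ℂ) ∈ V) :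
    ∃ H : ℂ × ℂ → ℂ, DifferentiableAt ℂ H (a, 0) ∧ ∀ᶠ p in 𝓝 ((a, 0) : ℂ × ℂ),
      g p = p.2 * H p ∧ (p.2 = 0 → H p = fderiv ℂ g p (0, 1)) := by
  obtain ⟨r, hr, hrV⟩ := Metric.nhds_basis_closedBall.mem_iff.1 (hV.mem_nhds ha)
  set G1 : ℂ × ℂ → ℂ := fun p => fderiv ℂ g p (0, 1) with hG1
  have hgA : ∀ p ∈ V, AnalyticAt ℂ g p := fun p hp => ana1 hA hV hg hp
  have hG1A : ∀ p ∈ V, AnalyticAt ℂ G1 p := fun p hp =>
    AnalyticAt.comp (f := fderiv ℂ g)
      ((ContinuousLinearMap.apply ℂ ℂ ((0 : ℂ), (1 : ℂ))).analyticAt _) (hgA p hp).fderiv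
  have hmem : ∀ (s : ℝ), s ∈ Icc (0 : ℝ) 1 → ∀ x ∈ closedBall ((a, 0) : ℂ × ℂ) r,
      Ls s x ∈ V := fun s hs x hx => hrV (Ls_mem hs hx)
  have huI : uIoc (0 : ℝ) 1 = Ioc 0 1 := uIoc_of_le zero_le_one
  have huIcc : uIcc (0 : ℝ) 1 = Icc 0 1 := uIcc_of_le zero_le_one
  -- continuity in the parameter
  have hcont : ∀ x ∈ closedBall ((a, 0) : ℂ × ℂ) r,
      ContinuousOn (fun s : ℝ => G1 (Ls s x)) (Icc 0 1) := by
    intro x hx s hs
    exact (ContinuousAt.comp (f := fun s : ℝ => Ls s x) (g := G1)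
      (hG1A _ (hmem s hs x hx)).continuousAt (Ls_cont x).continuousAt).continuousWithinAt
  have hball : closedBall ((a, 0) : ℂ × ℂ) r ∈ 𝓝 ((a, 0) : ℂ × ℂ) := closedBall_mem_nhds _ hr
  have haB : ((a, 0) : ℂ × ℂ) ∈ closedBall ((a, 0) : ℂ × ℂ) r := mem_closedBall_self hr.le
  -- a bound of the derivative
  obtain ⟨C, hC⟩ := (isCompact_closedBall ((a, 0) : ℂ × ℂ) r).exists_bound_of_continuousOn
    (f := fderiv ℂ G1) (fun x hx => (hG1A x (hrV hx)).fderiv.continuousAt.continuousWithinAt)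
  refine ⟨fun x => ∫ s in (0 : ℝ)..1, G1 (Ls s x), ?_, ?_⟩
  · have h1 := intervalIntegral.hasFDerivAt_integral_of_dominated_of_fderiv_le (μ := volume)
      (a := (0 : ℝ)) (b := 1) (F := fun x s => G1 (Ls s x))
      (F' := fun x s => (fderiv ℂ G1 (Ls s x)).comp (Ls s)) (bound := fun _ => C)
      (x₀ := ((a, 0) : ℂ × ℂ)) hball ?_ ?_ ?_ ?_ ?_ ?_
    · exact h1.differentiableAt
    · filter_upwards [hball] with x hx
      rw [huI]
      exact ((hcont x hx).mono Ioc_subset_Icc_self).aestronglyMeasurable measurableSet_Ioc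
    · refine ContinuousOn.intervalIntegrable ?_
      rw [huIcc]
      exact hcont _ haB
    · rw [huI]
      refine ContinuousOn.aestronglyMeasurable ?_ measurableSet_Ioc
      intro s hs
      have h2 : ContinuousAt (fun s : ℝ => fderiv ℂ G1 (Ls s (a, 0))) s :=
        ContinuousAt.comp (f := fun s : ℝ => Ls s (a, 0)) (g := fderiv ℂ G1)
          (hG1A _ (hmem s (Ioc_subset_Icc_self hs) _ haB)).fderiv.continuousAt
          (Ls_cont _).continuousAt
      exact (h2.clm_comp Ls_cont'.continuousAt).continuousWithinAt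
    · refine Eventually.of_forall fun s hs x hx => ?_
      rw [huI] at hs
      have hs' := Ioc_subset_Icc_self hs
      calc ‖(fderiv ℂ G1 (Ls s x)).comp (Ls s)‖ ≤ ‖fderiv ℂ G1 (Ls s x)‖ * ‖Ls s‖ :=
            ContinuousLinearMap.opNorm_comp_le _ _
        _ ≤ ‖fderiv ℂ G1 (Ls s x)‖ * 1 :=
            mul_le_mul_of_nonneg_left (Ls_norm hs') (norm_nonneg _)
        _ ≤ C := by
            rw [mul_one]
            exact hC _ (Ls_mem hs' hx)
    · exact intervalIntegrable_const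
    · refine Eventually.of_forall fun s hs x hx => ?_
      rw [huI] at hs
      have hs' := Ioc_subset_Icc_self hs
      exact (hG1A _ (hmem s hs' x hx)).differentiableAt.hasFDerivAt.comp x (Ls s).hasFDerivAt
  · filter_upwards [hball] with p hp
    constructor
    · have h2 : ∀ s ∈ uIcc (0 : ℝ) 1, HasDerivAt (fun s : ℝ => g (Ls s p)) (p.2 * G1 (Ls s p)) s := by
        intro s hs
        rw [huIcc] at hs
        have h3 : HasFDerivAt g (fderiv ℂ g (Ls s p)) (Ls s p) :=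
          (hgA _ (hmem s hs p hp)).differentiableAt.hasFDerivAt
        have h4 : HasDerivAt (fun s : ℝ => Ls s p) ((0 : ℂ), p.2) s := by
          simp only [Ls_apply]
          refine HasDerivAt.prodMk (hasDerivAt_const s p.1) ?_
          have h5 := (Complex.ofRealCLM.hasDerivAt (x := s)).mul_const p.2
          simpa using h5
        have h6 := HasFDerivAt.comp_hasDerivAt (f := fun s : ℝ => Ls s p) s
          (h3.restrictScalars ℝ) h4
        have h7 : (fderiv ℂ g (Ls s p)).restrictScalars ℝ ((0 : ℂ), p.2) = p.2 * G1 (Ls s p) := by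
          have h8 : ((0 : ℂ), p.2) = p.2 • ((0 : ℂ), (1 : ℂ)) := by
            rw [Prod.smul_mk, smul_zero, smul_eq_mul, mul_one]
          rw [ContinuousLinearMap.coe_restrictScalars', h8, map_smul, smul_eq_mul]
        rw [h7] at h6
        exact h6
      have h9 := intervalIntegral.integral_eq_sub_of_hasDerivAt h2 (by
        refine ContinuousOn.intervalIntegrable ?_
        rw [huIcc]
        exact continuousOn_const.mul (hcont p hp))
      rw [intervalIntegral.integral_const_mul] at h9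
      rw [h9]
      have h10 : Ls 1 p = p := by
        rw [Ls_apply, Complex.ofReal_one, one_mul]
      have h11 : g (Ls 0 p) = 0 := by
        refine h0 _ (hmem 0 ⟨le_rfl, zero_le_one⟩ p hp) ?_
        rw [Ls_apply, Complex.ofReal_zero, zero_mul]
      rw [h10, h11, sub_zero]
    · intro hp2
      have h2 : ∀ s : ℝ, Ls s p = p := by
        intro s
        rw [Ls_apply, hp2, mul_zero, ← hp2]
      simp only [h2]
      rw [intervalIntegral.integral_const, sub_zero, one_smul]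

theorem t_DIV (hA : S_ANA) : S_DIV := by
  classical
  intro V g hV hg h0
  refine ⟨fun p => if p.2 = 0 then fderiv ℂ g p (0, 1) else g p / p.2, ?_, ?_, ?_⟩
  · intro p hp
    refine DifferentiableAt.differentiableWithinAt ?_
    by_cases h2 : p.2 = 0
    · obtain ⟨a, b⟩ := p
      simp only at h2
      subst h2
      obtain ⟨H, hH, hev⟩ := local_div hA hV hg h0 hp
      refine hH.congr_of_eventuallyEq ?_
      filter_upwards [hev] with q hq
      by_cases hq2 : q.2 = 0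
      · rw [if_pos hq2, hq.2 hq2]
      · rw [if_neg hq2, hq.1, mul_div_cancel_left₀ _ hq2]
    · have h3 : (fun q : ℂ × ℂ => if q.2 = 0 then fderiv ℂ g q (0, 1) else g q / q.2) =ᶠ[𝓝 p]
          fun q => g q / q.2 := by
        have h4 : ∀ᶠ q : ℂ × ℂ in 𝓝 p, q.2 ≠ 0 :=
          continuous_snd.continuousAt.eventually_ne h2
        filter_upwards [h4] with q hq
        rw [if_neg hq]
      refine DifferentiableAt.congr_of_eventuallyEq ?_ h3
      have h5 : DifferentiableAt ℂ g p := hg.differentiableAt (hV.mem_nhds hp)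
      have h6 : DifferentiableAt ℂ (fun q : ℂ × ℂ => q.2⁻¹) p := differentiableAt_snd.inv h2
      simp only [div_eq_mul_inv]
      exact h5.mul h6
  · intro p hp
    by_cases h2 : p.2 = 0
    · rw [h0 p hp h2, h2, zero_mul]
    · simp only [if_neg h2]
      rw [mul_div_cancel₀ _ h2]
  · intro p hp h2
    simp only [if_pos h2]

end Pool.Agent.H224.KT
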